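import Mathlib
import Pool.Agent.helper7.JT.Defs
import Pool.Agent.helper79.OC.AA5

/-!
# Project JT, module HK: from the Hecke operators to incidences
-/

set_option autoImplicit false

open PowerSeries Finset

namespace Pool.Agent.helper7.JT

open OC (J hs cs PA P5 Exc)
open Pool.Agent.helper81 (EE PP)
open Pool.Agent.helper12.PE (DD pentSet mem_pentSet coeff_EE_pow sq_pentagonal)

/-- the joint parity: `p(n - h₀) + ∑ p(n - h₀ + dsh h)` modulo 2 -/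
def PJ (h₀ : ℕ) {nh : ℕ} (dsh : Fin nh → ℕ) (n : ℕ) : ZMod 2 :=
  (if h₀ ≤ n then (Fintype.card (Nat.Partition (n - h₀)) : ZMod 2) else 0) +
    ∑ h, if h₀ ≤ n + dsh h then (Fintype.card (Nat.Partition (n + dsh h - h₀)) : ZMod 2) else 0

/-- The coefficients of `Δ ^ ((4 ^ μ - 1) / 3)` as sums of partition numbers. -/
lemma hk_coeff (μ N n' : ℕ) (h : 3 * N + 1 = 24 * n' + 4 ^ μ) :
    coeff N (DD ^ ((4 ^ μ - 1) / 3)) =
      ∑ k ∈ pentSet (4 ^ μ) n', coeff (n' - 4 ^ μ * pentagonal k) PP := by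
  set j := (4 ^ μ - 1) / 3 with hj
  have hj3 := OC.three_mul_jj μ
  rw [← hj] at hj3
  obtain rfl : N = 8 * n' + j := by omega
  rw [OC.DD_pow_eq, coeff_X_pow_mul, coeff_expand_mul, ← coeff_EE_pow]
  congr 2
  omega

/-- The same sum over a larger index set. -/
lemma hk_extend (μ n₁ n₂ : ℕ) (h : n₁ ≤ n₂) :
    ∑ k ∈ pentSet (4 ^ μ) n₁, coeff (n₁ - 4 ^ μ * pentagonal k) PP =
      ∑ k ∈ pentSet (4 ^ μ) n₂, if 4 ^ μ * pentagonal k ≤ n₁ then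
        (Fintype.card (Nat.Partition (n₁ - 4 ^ μ * pentagonal k)) : ZMod 2) else 0 := by
  have hG : 1 ≤ 4 ^ μ := Nat.one_le_pow _ _ (by norm_num)
  rw [← sum_filter]
  refine sum_congr ?_ fun k _ => ?_
  · ext k
    rw [mem_filter, mem_pentSet hG, mem_pentSet hG]
    omega
  · unfold PP
    rw [coeff_mk]

theorem cover (μ h₀ nh : ℕ) (hμ : 2 ≤ μ) (dsh : Fin nh → ℕ) (hd : ∀ h, 1 ≤ dsh h ∧ dsh h ≤ h₀)
    (S₀ : Finset ℕ) (hS₀ : ∀ ℓ ∈ S₀, ℓ.Prime ∧ ℓ % 8 = 5) (hc₀ : S₀.card + 1 = 2 ^ (μ - 1))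
    (S : Fin nh → Finset ℕ) (hS : ∀ h, ∀ ℓ ∈ S h, ℓ.Prime ∧ ℓ ≠ 2 ∧
      ℓ ∣ (∏ p ∈ S₀, p) + 8 * dsh h ∧ ¬ ℓ ^ 2 ∣ (∏ p ∈ S₀, p) + 8 * dsh h)
    (hc : ∀ h, 2 ^ (μ - 1) ≤ (S h).card) :
    ∃ n y : ℕ, 1 ≤ y ∧ PJ h₀ dsh n = 1 ∧
      3 * (∏ p ∈ S₀, p) + 24 * h₀ + 1 = 24 * n + (2 ^ μ * y) ^ 2 := by
  have hG : 1 ≤ 4 ^ μ := Nat.one_le_pow _ _ (by norm_num)
  set N := ∏ p ∈ S₀, p with hN
  have hone : coeff N (DD ^ ((4 ^ μ - 1) / 3)) = 1 := OC.coeff_prod μ (by omega) S₀ hS₀ hc₀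
  obtain ⟨n₀, hn₀, -⟩ := OC.coeff_DD_pow_sum μ N (by rw [hone]; exact one_ne_zero)
  -- the zero coefficients
  have hzero : ∀ h, coeff (N + 8 * dsh h) (DD ^ ((4 ^ μ - 1) / 3)) = 0 := by
    intro h
    have hdvd : (∏ ℓ ∈ S h, ℓ) ∣ N + 8 * dsh h :=
      Finset.prod_primes_dvd _ (fun ℓ hℓ => (hS h ℓ hℓ).1.prime) fun ℓ hℓ => (hS h ℓ hℓ).2.2.1
    obtain ⟨q, hq⟩ := hdvd
    rw [hq, mul_comm]
    refine OC.coeff_zero μ (by omega) (S h) (fun ℓ hℓ => ⟨(hS h ℓ hℓ).1, (hS h ℓ hℓ).2.1⟩)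
      (hc h) q ?_
    intro ℓ hℓ hℓq
    apply (hS h ℓ hℓ).2.2.2
    rw [hq, pow_two]
    exact mul_dvd_mul (dvd_prod_of_mem _ hℓ) hℓq
  set nt := n₀ + h₀ with hnt
  -- the sum of the coefficients
  have key : ∑ k ∈ pentSet (4 ^ μ) nt, PJ h₀ dsh (nt - 4 ^ μ * pentagonal k) = 1 := by
    have e0 := hk_coeff μ N n₀ hn₀
    rw [hone, hk_extend μ n₀ nt (by omega)] at e0
    have e1 : ∀ h, (0 : ZMod 2) = ∑ k ∈ pentSet (4 ^ μ) nt,
        if 4 ^ μ * pentagonal k ≤ n₀ + dsh h then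
          (Fintype.card (Nat.Partition (n₀ + dsh h - 4 ^ μ * pentagonal k)) : ZMod 2) else 0 := by
      intro h
      have e2 := hk_coeff μ (N + 8 * dsh h) (n₀ + dsh h) (by omega)
      rw [hzero h, hk_extend μ (n₀ + dsh h) nt (by have := (hd h).2; omega)] at e2
      exact e2
    have e3 : ∑ k ∈ pentSet (4 ^ μ) nt, PJ h₀ dsh (nt - 4 ^ μ * pentagonal k) =
        (∑ k ∈ pentSet (4 ^ μ) nt, if 4 ^ μ * pentagonal k ≤ n₀ then
          (Fintype.card (Nat.Partition (n₀ - 4 ^ μ * pentagonal k)) : ZMod 2) else 0) +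
        ∑ h, ∑ k ∈ pentSet (4 ^ μ) nt,
        if 4 ^ μ * pentagonal k ≤ n₀ + dsh h then
          (Fintype.card (Nat.Partition (n₀ + dsh h - 4 ^ μ * pentagonal k)) : ZMod 2) else 0 := by
      rw [sum_comm, ← sum_add_distrib]
      refine sum_congr rfl fun k hk => ?_
      rw [mem_pentSet hG] at hk
      unfold PJ
      congr 1
      · by_cases hle : 4 ^ μ * pentagonal k ≤ n₀
        · rw [if_pos hle, if_pos (by omega)]
          have e : nt - 4 ^ μ * pentagonal k - h₀ = n₀ - 4 ^ μ * pentagonal k := by omega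
          rw [e]
        · rw [if_neg hle, if_neg (by omega)]
      · refine sum_congr rfl fun h _ => ?_
        have := (hd h).2
        by_cases hle : 4 ^ μ * pentagonal k ≤ n₀ + dsh h
        · rw [if_pos hle, if_pos (by omega)]
          have e : nt - 4 ^ μ * pentagonal k + dsh h - h₀ = n₀ + dsh h - 4 ^ μ * pentagonal k := by
            omega
          rw [e]
        · rw [if_neg hle, if_neg (by omega)]
    rw [e3, ← e0, ← sum_congr rfl (fun h _ => e1 h)]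
    simp
  have hne : ∑ k ∈ pentSet (4 ^ μ) nt, PJ h₀ dsh (nt - 4 ^ μ * pentagonal k) ≠ 0 := by
    rw [key]; exact one_ne_zero
  obtain ⟨k, hk, hk2⟩ := exists_ne_zero_of_sum_ne_zero hne
  rw [mem_pentSet hG] at hk
  refine ⟨nt - 4 ^ μ * pentagonal k, (6 * k - 1).natAbs, by omega, ?_, ?_⟩
  · have key2 : ∀ a : ZMod 2, a ≠ 0 → a = 1 := by decide
    exact key2 _ hk2
  · have h3 := sq_pentagonal k
    have h4 : ((((6 * k - 1).natAbs : ℕ) : ℤ)) ^ 2 = (6 * k - 1) ^ 2 := by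
      rw [Int.natCast_natAbs, sq_abs]
    have h5 : (24 * pentagonal k + 1 : ℕ) = (6 * k - 1).natAbs ^ 2 := by
      have : ((24 * pentagonal k + 1 : ℕ) : ℤ) = (((6 * k - 1).natAbs ^ 2 : ℕ) : ℤ) := by
        push_cast
        rw [← Int.natCast_natAbs, h4]
        exact_mod_cast h3
      exact_mod_cast this
    have h6 : (2 : ℕ) ^ μ * 2 ^ μ = 4 ^ μ := by
      rw [← mul_pow]; norm_num
    rw [mul_pow, ← h5, sq, h6, mul_add, mul_one]
    have h7 : 4 ^ μ * (24 * pentagonal k) = 24 * (4 ^ μ * pentagonal k) := by ring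
    omega

end Pool.Agent.helper7.JT
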